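import Mathlib
import Pool.Agent.H.MP_1da4e9_nt.A

namespace Pool.Agent.Results.MP_1da4e9_nt.Lower

open Pool.Agent.Lib.helper11.Cover Pool.Agent.H.MP_1da4e9_nt

def UQD (H : Set ℤ) (μ : Set ℤ → ℝ) : Prop :=
  μ H = 1 ∧ (∀ X ⊆ H, ∀ Y ⊆ H, μ (X ∪ Y) ≤ μ X + μ Y) ∧
    (∀ X ⊆ H, ∀ h k : ℕ, 0 < h → 0 < k → μ ((fun x => k * x + h) '' X) = μ X / k) ∧
    ∀ X ⊆ H, μ X ≤ 1

def low (H : Set ℤ) (μ : Set ℤ → ℝ) (X : Set ℤ) : ℝ := 1 - μ (H \ X)

theorem result :
    (∀ H : Set ℤ, H = Set.univ ∨ H = Set.Ici 0 ∨ H = Set.Ici 1 →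
      ∃ μ, UQD H μ ∧ (∀ Y ⊆ H, ∀ X ⊆ Y, μ X ≤ μ Y) ∧ ∃ X ⊆ H, ∃ k : ℕ, 0 < k ∧
        low H μ ((fun x => k * x) '' X) ≠ low H μ X / k) ∧
    (∀ H : Set ℤ, H = Set.Ici 0 ∨ H = Set.Ici 1 →
      ∃ μ, UQD H μ ∧ ∃ X ⊆ H, ∃ h : ℕ, low H μ ((fun x => x + h) '' X) ≠ low H μ X) ∧
    ∀ μ, UQD Set.univ μ → ∀ (X : Set ℤ) (h : ℕ),
      low Set.univ μ ((fun x => x + h) '' X) = low Set.univ μ X := by
  classical
  have un := fun e => mu_union (sys e)
  have mo := fun e => @mu_mono _ _ _ (sys e)
  have nn := fun e => mu_nonneg (sys e)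
  have le1 := fun e => mu_le_one (sys e)
  refine ⟨fun H hH => ?_, fun H hH => ?_, fun μ hμ X h => ?_⟩
  · have h1 : Set.Ici 1 ⊆ H := by
      rcases hH with rfl | rfl | rfl <;> intro n hn <;> simp_all; omega
    have h2 : ∀ m, 2 * m ∈ H → m ∈ H := by
      rcases hH with rfl | rfl | rfl <;> intro n hn <;> simp_all; omega
    refine ⟨fun Z => max (nu true Z) (nu false Z / 2), ⟨by norm_num [nu_top _ h1], ?_, ?_, ?_⟩, ?_,
      H \ W, Set.sdiff_subset, 2, two_pos, ?_⟩
    · intro X _ Y _
      have a := un true X Y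
      have b := un false X Y
      unfold nu
      refine max_le ?_ ?_ <;>
        linarith [le_max_left (mu (G true) w X) (mu (G false) w X / 2),
          le_max_right (mu (G true) w X) (mu (G false) w X / 2),
          le_max_left (mu (G true) w Y) (mu (G false) w Y / 2),
          le_max_right (mu (G true) w Y) (mu (G false) w Y / 2)]
    · intro X _ h k _ hk
      simp only
      rw [aff _ k hk, aff _ k hk, ← max_div_div_right (by positivity), div_right_comm]
    · intro X _
      exact max_le (le1 _ _) (by unfold nu; linarith [le1 false X])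
    · intro Y _ X h
      exact max_le_max (mo _ h) (by unfold nu; linarith [mo false h])
    · have a : H \ (fun x => ((2 : ℕ) : ℤ) * x) '' (H \ W) ⊆
          G true (Sum.inl (2, 1)) ∪ (fun x => 2 * x + 0) '' W := by
        rintro n ⟨hn, h⟩
        rcases Int.even_or_odd' n with ⟨m, rfl | rfl⟩
        · right
          by_contra hc
          exact h ⟨m, ⟨h2 m hn, fun hm => hc ⟨m, hm, by simp⟩⟩, rfl⟩
        · left; simp [G]
      have b := (mo true a).trans (un true _ _)
      have c := mu_le_gen (sys true) (Sum.inl (2, 1)) le_rfl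
      have d := nu_free (W_free.image 2 0)
      have e : w (Sum.inl (2, 1)) = 1 / 2 := by simp [w]
      simp only [low]
      rw [Set.sdiff_sdiff_cancel_left (W_pos.trans h1), nu_free W_free, nu_W]
      unfold nu at d ⊢
      rw [d, add_zero] at b
      replace b := b.trans (c.trans e.le)
      generalize H \ (fun x => ((2 : ℕ) : ℤ) * x) '' (H \ W) = Z at b ⊢
      have f : max (mu (G true) w Z) (mu (G false) w Z / 2) ≤ 1 / 2 :=
        max_le b (by linarith [le1 false Z])
      rw [max_eq_right (show (0 : ℝ) ≤ 1 / 2 by norm_num)]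
      intro g
      push_cast at g
      linarith
  · obtain ⟨c, hc, rfl⟩ : ∃ c : ℤ, c ≤ 1 ∧ H = Set.Ici c := by
      rcases hH with rfl | rfl
      exacts [⟨0, by norm_num, rfl⟩, ⟨1, le_rfl, rfl⟩]
    have h1 : Set.Ici 1 ⊆ Set.Ici c := Set.Ici_subset_Ici.2 hc
    refine ⟨fun Z => if Free Z then nu false Z else nu true Z,
      ⟨by simp [nu_top _ h1], ?_, ?_, ?_⟩, Set.Ici c \ W, Set.sdiff_subset, 3, ?_⟩
    · intro X _ Y _
      have a : ∀ Z, nu true Z ≤ if Free Z then nu false Z else nu true Z := by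
        intro Z
        split_ifs with h
        · rw [nu_free h]; exact nn _ _
        · exact le_rfl
      simp only
      by_cases h : Free (X ∪ Y)
      · rw [if_pos h, if_pos (h.mono Set.subset_union_left),
          if_pos (h.mono Set.subset_union_right)]
        exact un _ _ _
      · rw [if_neg h]
        exact (un _ _ _).trans (add_le_add (a X) (a Y))
    · intro X _ h k _ hk
      simp only
      by_cases g : Free X
      · rw [if_pos g, if_pos (g.image _ _), aff _ k hk]
      · rw [if_neg g, if_neg fun g' => g ((g'.preimage k h (by omega)).mono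
          (Set.subset_preimage_image _ _)), aff _ k hk]
    · intro X _
      simp only
      split_ifs <;> exact le1 _ _
    · have s : ∀ x : ℤ, Free {x} := fun x y d a b _ => by simp_all
      have a : Set.Ici c \ (fun x => x + ((3 : ℕ) : ℤ)) '' (Set.Ici c \ W) ⊆
          {c} ∪ ({c + 1} ∪ ({c + 2} ∪ (fun x => 1 * x + 3) '' W)) := by
        rintro n ⟨hn, h⟩
        by_contra hc
        simp only [Set.mem_union, Set.mem_singleton_iff, not_or, Set.mem_Ici] at hc hn
        exact h ⟨n - 3, ⟨by simp only [Set.mem_Ici]; omega, fun hm => hc.2.2.2 ⟨_, hm, by simp⟩⟩,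
          by simp⟩
      have b := mo true a
      have b1 := un true {c} ({c + 1} ∪ ({c + 2} ∪ (fun x => 1 * x + 3) '' W))
      have b2 := un true {c + 1} ({c + 2} ∪ (fun x => 1 * x + 3) '' W)
      have b3 := un true {c + 2} ((fun x => 1 * x + 3) '' W)
      have d := nu_free (W_free.image 1 3)
      have d0 := nu_free (s c)
      have d1 := nu_free (s (c + 1))
      have d2 := nu_free (s (c + 2))
      have f : ¬ Free (Set.Ici c \ (fun x => x + ((3 : ℕ) : ℤ)) '' (Set.Ici c \ W)) := by
        intro g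
        have t : ∀ n, c ≤ n → n < c + 3 →
            n ∈ Set.Ici c \ (fun x => x + ((3 : ℕ) : ℤ)) '' (Set.Ici c \ W) := by
          refine fun n p q => ⟨p, ?_⟩
          rintro ⟨x, ⟨hx, -⟩, rfl⟩
          simp only [Set.mem_Ici] at hx q; omega
        exact one_ne_zero (g c 1 (t _ (by omega) (by omega)) (t _ (by omega) (by omega))
          (t _ (by omega) (by omega)))
      simp only [low]
      rw [Set.sdiff_sdiff_cancel_left (W_pos.trans h1), if_pos W_free, if_neg f, nu_W]
      unfold nu at *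
      intro g
      linarith
  · rcases Nat.eq_zero_or_pos h with rfl | hh
    · simp
    · have a := hμ.2.2.1 (Set.univ \ X) (Set.subset_univ _) h 1 hh one_pos
      simp only [low, Nat.cast_one, one_mul, div_one] at a ⊢
      rw [← a, Set.image_sdiff (add_left_injective _),
        Set.image_univ_of_surjective (add_right_surjective _)]

end Pool.Agent.Results.MP_1da4e9_nt.Lower
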